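import Mathlib

namespace Pool.Agent.H.MP_61b90e_gt

open PartialOrder

def Pow {α : Type} (R : α → α → Prop) : ℕ → α → α → Prop
  | 0, a, b => a = b
  | k + 1, a, b => ∃ c, R a c ∧ Pow R k c b

theorem Pow.snoc {α : Type} {R : α → α → Prop} : ∀ {k : ℕ} {a c b : α},
    Pow R k a c → R c b → Pow R (k + 1) a b
  | 0, a, c, b, h, h' => by
    have h : a = c := h
    subst h
    exact ⟨b, h', rfl⟩
  | k + 1, a, c, b, ⟨d, h1, h2⟩, h' => ⟨d, h1, Pow.snoc h2 h'⟩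

theorem Pow.unsnoc {α : Type} {R : α → α → Prop} : ∀ {k : ℕ} {a b : α},
    Pow R (k + 1) a b → ∃ c, Pow R k a c ∧ R c b
  | 0, a, b, ⟨d, h1, h2⟩ => by
    have h2 : d = b := h2
    subst h2
    exact ⟨a, rfl, h1⟩
  | k + 1, a, b, ⟨d, h1, h2⟩ => by
    obtain ⟨c, h3, h4⟩ := Pow.unsnoc h2
    exact ⟨c, ⟨d, h1, h3⟩, h4⟩

section
variable {P : Type} [PartialOrder P]

/-- common upper bound in `S`. -/
def Rel (S : Set P) (a b : P) : Prop := ∃ q ∈ S, a ≤ q ∧ b ≤ q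

def Cmp (a b : P) : Prop := a ≤ b ∨ b ≤ a

def Conv (A : Set P) (r : ℕ) : Prop :=
  ∀ s ≤ r, ∀ a ∈ A, ∀ b ∈ A, Pow (Rel Set.univ) s a b → Pow (Rel A) s a b

theorem pad {S : Set P} {s : ℕ} {a b : P} (ha : a ∈ S) (h : Pow (Rel S) s a b) :
    ∀ j, Pow (Rel S) (s + j) a b
  | 0 => h
  | j + 1 => ⟨a, ⟨a, ha, le_rfl, le_rfl⟩, pad ha h j⟩

theorem pow_start {S : Set P} {s : ℕ} {a a' b : P} (h : Pow (Rel S) (s + 1) a b) (ha : a' ≤ a) :
    Pow (Rel S) (s + 1) a' b := by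
  obtain ⟨c, ⟨q, hq, h1, h2⟩, h3⟩ := h
  exact ⟨c, ⟨q, hq, ha.trans h1, h2⟩, h3⟩

theorem pow_end {S : Set P} {s : ℕ} {a b b' : P} (h : Pow (Rel S) (s + 1) a b) (hb : b' ≤ b) :
    Pow (Rel S) (s + 1) a b' := by
  obtain ⟨c, h3, q, hq, h1, h2⟩ := h.unsnoc
  exact h3.snoc ⟨q, hq, h1, hb.trans h2⟩

theorem peaks_of_cmp : ∀ (k : ℕ) {x y α β : P}, Pow Cmp k x y → α ≤ x → β ≤ y →
    Pow (Rel Set.univ) (k / 2 + 1) α β
  | 0, x, y, α, β, h, h1, h2 => by
    have h : x = y := h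
    subst h
    exact ⟨β, ⟨x, trivial, h1, h2⟩, rfl⟩
  | 1, x, y, α, β, ⟨c, hc, h⟩, h1, h2 => by
    have h : c = y := h
    subst h
    rcases hc with hc | hc
    · exact ⟨β, ⟨c, trivial, h1.trans hc, h2⟩, rfl⟩
    · exact ⟨β, ⟨x, trivial, h1, h2.trans hc⟩, rfl⟩
  | k + 2, x, y, α, β, ⟨c, hc, c', hc', h⟩, h1, h2 => by
    have e : (k + 2) / 2 + 1 = (k / 2 + 1) + 1 := by omega
    rw [e]
    obtain ⟨q, hq1, hq2⟩ : ∃ q, x ≤ q ∧ c ≤ q := by
      rcases hc with hc | hc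
      · exact ⟨c, hc, le_rfl⟩
      · exact ⟨x, le_rfl, hc⟩
    obtain ⟨p, hp1, hp2⟩ : ∃ p, p ≤ c ∧ p ≤ c' := by
      rcases hc' with hc' | hc'
      · exact ⟨c, le_rfl, hc'⟩
      · exact ⟨c', hc', le_rfl⟩
    exact ⟨p, ⟨q, trivial, h1.trans hq1, hp1.trans hq2⟩, peaks_of_cmp k h hp2 h2⟩

abbrev Ch (P : Type) [PartialOrder P] := NonemptyFiniteChains P

theorem cmp_of_mem (c : Ch P) {x y : P} (hx : x ∈ c.finset) (hy : y ∈ c.finset) :
    x ≤ y ∨ y ≤ x := c.comparable ⟨x, hx⟩ ⟨y, hy⟩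

def sing (x : P) : Ch P where
  finset := {x}
  comparable := by
    rintro ⟨a, ha⟩ ⟨b, hb⟩
    simp only [Finset.mem_singleton] at ha hb
    subst ha hb
    exact Or.inl le_rfl

open Classical in
noncomputable def ins (c : Ch P) (q : P) (h : ∀ x ∈ c.finset, x ≤ q) : Ch P where
  finset := insert q c.finset
  comparable := by
    rintro ⟨a, ha⟩ ⟨b, hb⟩
    change a ≤ b ∨ b ≤ a
    rcases Finset.mem_insert.1 ha with ha | ha <;> rcases Finset.mem_insert.1 hb with hb | hb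
    · exact Or.inl (ha.trans hb.symm).le
    · exact Or.inr (ha ▸ h _ hb)
    · exact Or.inl (hb ▸ h _ ha)
    · exact cmp_of_mem c ha hb

open Classical in
noncomputable def filt (c : Ch P) (A : Set P) (h : ∃ x ∈ c.finset, x ∈ A) : Ch P where
  finset := c.finset.filter (· ∈ A)
  nonempty := by
    obtain ⟨x, h1, h2⟩ := h
    exact ⟨x, Finset.mem_filter.2 ⟨h1, h2⟩⟩
  comparable := by
    rintro ⟨a, ha⟩ ⟨b, hb⟩
    exact cmp_of_mem c (Finset.mem_filter.1 ha).1 (Finset.mem_filter.1 hb).1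

theorem mem_sing {x y : P} : y ∈ (sing x).finset ↔ y = x := by simp [sing]

theorem mem_ins {c : Ch P} {q y : P} {h} : y ∈ (ins c q h).finset ↔ y = q ∨ y ∈ c.finset := by
  simp [ins]

theorem mem_filt {c : Ch P} {A : Set P} {y : P} {h} :
    y ∈ (filt c A h).finset ↔ y ∈ c.finset ∧ y ∈ A := by
  simp [filt]

theorem ch_le {c c' : Ch P} : c ≤ c' ↔ ∀ x ∈ c.finset, x ∈ c'.finset := Iff.rfl

theorem exists_top (c : Ch P) : ∃ α ∈ c.finset, ∀ x ∈ c.finset, x ≤ α := by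
  obtain ⟨α, hα⟩ := c.finset.exists_maximal c.nonempty
  refine ⟨α, hα.1, fun x hx => ?_⟩
  rcases cmp_of_mem c hx hα.1 with h | h
  · exact h
  · exact hα.2 hx h

def ChS (A : Set P) : Set (Ch P) := {c | ∀ x ∈ c.finset, x ∈ A}

theorem chS_lower (A : Set P) : IsLowerSet (ChS A) := fun _ _ h hc x hx => hc x (h hx)

theorem rel_filt {A : Set P} {a b : Ch P} (ha : a ∈ ChS A) (hb : b ∈ ChS A)
    (h : Rel Set.univ a b) : Rel (ChS A) a b := by
  obtain ⟨q, -, h1, h2⟩ := h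
  obtain ⟨x, hx⟩ := a.nonempty
  refine ⟨filt q A ⟨x, h1 hx, ha x hx⟩, fun y hy => (mem_filt.1 hy).2, ?_, ?_⟩
  · exact ch_le.2 fun y hy => mem_filt.2 ⟨h1 hy, ha y hy⟩
  · exact ch_le.2 fun y hy => mem_filt.2 ⟨h2 hy, hb y hy⟩

theorem lift_peaks {A : Set P} (hA : IsLowerSet A) : ∀ (t : ℕ) {α β : P} {a b : Ch P},
    Pow (Rel A) (t + 1) α β → a ∈ ChS A → b ∈ ChS A → (∀ x ∈ a.finset, x ≤ α) →
    (∀ x ∈ b.finset, x ≤ β) → Pow (Rel (ChS A)) (2 * (t + 1)) a b := by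
  have step : ∀ {a : Ch P} {q : P}, a ∈ ChS A → q ∈ A → (∀ x ∈ a.finset, x ≤ q) →
      Rel (ChS A) a (sing q) ∧ Rel (ChS A) (sing q) a := by
    intro a q ha hq h
    have m : ins a q h ∈ ChS A := fun y hy => by
      rcases mem_ins.1 hy with rfl | hy
      · exact hq
      · exact ha y hy
    have l1 : a ≤ ins a q h := ch_le.2 fun y hy => mem_ins.2 (Or.inr hy)
    have l2 : sing q ≤ ins a q h := ch_le.2 fun y hy => mem_ins.2 (Or.inl (mem_sing.1 hy))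
    exact ⟨⟨_, m, l1, l2⟩, ⟨_, m, l2, l1⟩⟩
  intro t
  induction t with
  | zero =>
    intro α β a b ⟨p, ⟨q, hq, h1, h2⟩, h3⟩ ha hb h4 h5
    have h3 : p = β := h3
    subst h3
    exact ⟨sing q, (step ha hq fun x hx => (h4 x hx).trans h1).1,
      b, (step hb hq fun x hx => (h5 x hx).trans h2).2, rfl⟩
  | succ t ih =>
    intro α β a b ⟨p, ⟨q, hq, h1, h2⟩, h3⟩ ha hb h4 h5
    have hp : sing p ∈ ChS A := fun y hy => by
      rw [mem_sing.1 hy]; exact hA h2 hq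
    have hp' : ∀ x ∈ (sing p).finset, x ≤ p := fun x hx => (mem_sing.1 hx).le
    have e : 2 * (t + 1 + 1) = 2 * (t + 1) + 1 + 1 := by ring
    rw [e]
    exact ⟨sing q, (step ha hq fun x hx => (h4 x hx).trans h1).1,
      sing p, (step hp hq fun x hx => (hp' x hx).trans h2).2, ih h3 hp hb hp' h5⟩

theorem walk_of_pow : ∀ (s : ℕ) {p p' : Ch P} {x : P}, Pow (Rel Set.univ) s p p' →
    x ∈ p.finset → ∃ y ∈ p'.finset, Pow Cmp s x y
  | 0, p, p', x, h, hx => by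
    have h : p = p' := h
    subst h
    exact ⟨x, hx, rfl⟩
  | s + 1, p, p', x, ⟨c, ⟨q, _, h1, h2⟩, h3⟩, hx => by
    obtain ⟨z, hz⟩ := c.nonempty
    obtain ⟨y, hy, h4⟩ := walk_of_pow s h3 hz
    exact ⟨y, hy, z, cmp_of_mem q (h1 hx) (h2 hz), h4⟩

theorem conv_double {A : Set P} (hA : IsLowerSet A) {r : ℕ} (hC : Conv A r) :
    Conv (ChS A) (2 * r + 1) := by
  intro s
  induction s with
  | zero => intro _ a _ b _ h; exact h
  | succ s ih =>
    intro hs a ha b hb h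
    have ih := ih (by omega)
    rcases s with _ | s
    · obtain ⟨c, h1, h2⟩ := h
      have h2 : c = b := h2
      subst h2
      exact ⟨c, rel_filt ha hb h1, rfl⟩
    obtain ⟨p, hap, h1⟩ := h
    by_cases hp : ∃ x ∈ p.finset, x ∈ A
    · have l : filt p A hp ≤ p := ch_le.2 fun y hy => (mem_filt.1 hy).1
      have m : filt p A hp ∈ ChS A := fun y hy => (mem_filt.1 hy).2
      refine ⟨filt p A hp, rel_filt ha m ?_, ih _ m _ hb (pow_start h1 l)⟩
      obtain ⟨q, hq, h2, h3⟩ := hap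
      exact ⟨q, hq, h2, l.trans h3⟩
    obtain ⟨p', h2, hpb⟩ := h1.unsnoc
    by_cases hp' : ∃ x ∈ p'.finset, x ∈ A
    · have l : filt p' A hp' ≤ p' := ch_le.2 fun y hy => (mem_filt.1 hy).1
      have m : filt p' A hp' ∈ ChS A := fun y hy => (mem_filt.1 hy).2
      have h3 : Pow (Rel Set.univ) (s + 1) a p' := ⟨p, hap, h2⟩
      refine (ih _ ha _ m (pow_end h3 l)).snoc (rel_filt m hb ?_)
      obtain ⟨q, hq, h2, h3⟩ := hpb
      exact ⟨q, hq, l.trans h2, h3⟩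
    obtain ⟨x, hx⟩ := p.nonempty
    obtain ⟨y, hy, hw⟩ := walk_of_pow s h2 hx
    obtain ⟨α, hα, hα'⟩ := exists_top a
    obtain ⟨β, hβ, hβ'⟩ := exists_top b
    have h4 : α ≤ x := by
      obtain ⟨q, -, h5, h6⟩ := hap
      rcases cmp_of_mem q (h5 hα) (h6 hx) with h | h
      · exact h
      · exact absurd ⟨x, hx, hA h (ha α hα)⟩ hp
    have h5 : β ≤ y := by
      obtain ⟨q, -, h5, h6⟩ := hpb
      rcases cmp_of_mem q (h6 hβ) (h5 hy) with h | h
      · exact h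
      · exact absurd ⟨y, hy, hA h (hb β hβ)⟩ hp'
    have h6 := hC _ (by omega) α (ha α hα) β (hb β hβ) (peaks_of_cmp s hw h4 h5)
    have h7 := pad ha (lift_peaks hA _ h6 ha hb hα' hβ') (s % 2)
    have e : 2 * (s / 2 + 1) + s % 2 = s + 1 + 1 := by omega
    rwa [e] at h7

/-- the fence relation on the naturals -/
def FR (x y : ℕ) : Prop := x = y ∨ (x % 2 = 0 ∧ (y = x + 1 ∨ x = y + 1))

theorem extend {A : Set P} (hA : IsLowerSet A) {r : ℕ} (hC : Conv A r) (g : P → ℕ)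
    (hg : ∀ a ∈ A, ∀ b ∈ A, a ≤ b → FR (g a) (g b)) (hb : ∀ a ∈ A, g a ≤ 2 * (r + 1)) :
    ∃ F : P → ℕ, (∀ a b, a ≤ b → FR (F a) (F b)) ∧ (∀ a, F a ≤ 2 * (r + 1)) ∧
      ∀ a ∈ A, F a = g a := by
  classical
  let O : ℕ → P → Prop := fun u q =>
    ∃ a ∈ A, ∃ k y, Pow (Rel Set.univ) k a y ∧ y ≤ q ∧ g a / 2 + k ≤ u
  let E : ℕ → P → Prop := fun u q =>
    (q ∈ A ∧ g q ≤ 2 * u) ∨ ∃ a ∈ A, ∃ k, Pow (Rel Set.univ) (k + 1) a q ∧ g a / 2 + k + 1 ≤ u
  have EO : ∀ u p q, E u p → p ≤ q → O u q := by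
    rintro u p q (⟨h1, h2⟩ | ⟨a, ha, k, h1, h2⟩) h
    · exact ⟨p, h1, 0, p, rfl, h, by omega⟩
    · exact ⟨a, ha, k + 1, p, h1, h, by omega⟩
  have OO : ∀ u p q, O u p → p ≤ q → O u q := by
    rintro u p q ⟨a, ha, k, y, h1, h2, h3⟩ h
    exact ⟨a, ha, k, y, h1, h2.trans h, h3⟩
  have OE : ∀ u p q, O u q → p ≤ q → E (u + 1) p := by
    rintro u p q ⟨a, ha, k, y, h1, h2, h3⟩ h
    exact Or.inr ⟨a, ha, k, h1.snoc ⟨q, trivial, h2, h⟩, by omega⟩
  have EE : ∀ u p q, E u q → p ≤ q → E u p := by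
    rintro u p q (⟨h1, h2⟩ | ⟨a, ha, k, h1, h2⟩) h
    · refine Or.inl ⟨hA h h1, ?_⟩
      have := hg p (hA h h1) q h1 h
      unfold FR at this
      omega
    · exact Or.inr ⟨a, ha, k, pow_end h1 h, h2⟩
  let L : ℕ → P → Prop := fun t q =>
    2 * (r + 1) ≤ t ∨ (t % 2 = 0 ∧ E (t / 2) q) ∨ (t % 2 = 1 ∧ O (t / 2) q)
  have up : ∀ t p q, L t p → p ≤ q → L (t + 1) q ∧ (t % 2 = 1 → L t q) := by
    rintro t p q (h | ⟨h1, h2⟩ | ⟨h1, h2⟩) hpq
    · exact ⟨Or.inl (by omega), fun _ => Or.inl h⟩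
    · refine ⟨Or.inr (Or.inr ⟨by omega, ?_⟩), fun h => by omega⟩
      rw [show (t + 1) / 2 = t / 2 by omega]
      exact EO _ _ _ h2 hpq
    · refine ⟨Or.inr (Or.inl ⟨by omega, ?_⟩), fun _ => Or.inr (Or.inr ⟨h1, OO _ _ _ h2 hpq⟩)⟩
      rw [show (t + 1) / 2 = t / 2 + 1 by omega]
      exact OE _ _ _ (OO _ _ _ h2 hpq) le_rfl
  have dn : ∀ t p q, L t q → p ≤ q → L (t + 1) p ∧ (t % 2 = 0 → L t p) := by
    rintro t p q (h | ⟨h1, h2⟩ | ⟨h1, h2⟩) hpq
    · exact ⟨Or.inl (by omega), fun _ => Or.inl h⟩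
    · refine ⟨Or.inr (Or.inr ⟨by omega, ?_⟩), fun _ => Or.inr (Or.inl ⟨h1, EE _ _ _ h2 hpq⟩)⟩
      rw [show (t + 1) / 2 = t / 2 by omega]
      exact EO _ _ _ (EE _ _ _ h2 hpq) le_rfl
    · refine ⟨Or.inr (Or.inl ⟨by omega, ?_⟩), fun h => by omega⟩
      rw [show (t + 1) / 2 = t / 2 + 1 by omega]
      exact OE _ _ _ h2 hpq
  have ex : ∀ q, ∃ t, L t q := fun q => ⟨2 * (r + 1), Or.inl le_rfl⟩
  have relA : ∀ x y, Rel A x y → g y ≤ 2 * (g x / 2) + 2 := by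
    rintro x y ⟨q, hq, h1, h2⟩
    have a1 := hg x (hA h1 hq) q hq h1
    have a2 := hg y (hA h2 hq) q hq h2
    unfold FR at a1 a2
    omega
  have powA : ∀ k x y, Pow (Rel A) k x y → g y / 2 ≤ g x / 2 + k := by
    intro k
    induction k with
    | zero => intro x y h; have h : x = y := h; subst h; omega
    | succ k ih =>
      rintro x y ⟨c, h1, h2⟩
      have := relA _ _ h1
      have := ih _ _ h2
      omega
  refine ⟨fun q => Nat.find (ex q), fun p q h => ?_, fun q => Nat.find_min' _ (Or.inl le_rfl),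
    fun b hb' => le_antisymm (Nat.find_min' _ ?_) ?_⟩
  · have u1 := up _ p q (Nat.find_spec (ex p)) h
    have d1 := dn _ p q (Nat.find_spec (ex q)) h
    have a1 := Nat.find_min' (ex q) u1.1
    have a2 := fun h => Nat.find_min' (ex q) (u1.2 h)
    have a3 := Nat.find_min' (ex p) d1.1
    have a4 := fun h => Nat.find_min' (ex p) (d1.2 h)
    unfold FR
    dsimp only
    omega
  · rcases Nat.mod_two_eq_zero_or_one (g b) with h | h
    · exact Or.inr (Or.inl ⟨h, Or.inl ⟨hb', by omega⟩⟩)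
    · exact Or.inr (Or.inr ⟨h, b, hb', 0, b, rfl, le_rfl, by omega⟩)
  · have hs := Nat.find_spec (ex b)
    dsimp only
    generalize Nat.find (ex b) = t at hs
    by_cases ht : 2 * (r + 1) ≤ t
    · exact (hb b hb').trans ht
    rcases hs with h | ⟨h1, ⟨-, h2⟩ | ⟨a, ha, k, h2, h3⟩⟩ | ⟨h1, a, ha, k, y, h2, h3, h4⟩
    · exact absurd h ht
    · omega
    · obtain ⟨c, h4, h5⟩ := (hC _ (by omega) a ha b hb' h2).unsnoc
      have := powA _ _ _ h4
      have := relA _ _ h5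
      omega
    · have hy : y ∈ A := hA h3 hb'
      have := powA _ _ _ (hC _ (by omega) a ha y hy h2)
      have a1 := hg y hy b hb' h3
      unfold FR at a1
      omega

theorem walk_double : ∀ (k : ℕ) {x y : P}, Pow Cmp k x y → Pow Cmp (2 * k) (sing x) (sing y)
  | 0, x, y, h => by
    have h : x = y := h
    subst h
    rfl
  | k + 1, x, y, ⟨c, h1, h2⟩ => by
    have e : 2 * (k + 1) = 2 * k + 1 + 1 := by ring
    rw [e]
    rcases h1 with h1 | h1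
    · have h : ∀ z ∈ (sing x).finset, z ≤ c := fun z hz => (mem_sing.1 hz).le.trans h1
      exact ⟨ins (sing x) c h, Or.inl (ch_le.2 fun z hz => mem_ins.2 (Or.inr hz)), sing c,
        Or.inr (ch_le.2 fun z hz => mem_ins.2 (Or.inl (mem_sing.1 hz))), walk_double k h2⟩
    · have h : ∀ z ∈ (sing c).finset, z ≤ x := fun z hz => (mem_sing.1 hz).le.trans h1
      exact ⟨ins (sing c) x h, Or.inl (ch_le.2 fun z hz => mem_ins.2 (Or.inl (mem_sing.1 hz))),
        sing c, Or.inr (ch_le.2 fun z hz => mem_ins.2 (Or.inr hz)), walk_double k h2⟩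

theorem lip_walk (g : P → ℕ) (hg : ∀ a b, a ≤ b → FR (g a) (g b)) :
    ∀ (k : ℕ) {x y : P}, Pow Cmp k x y → g y ≤ g x + k
  | 0, x, y, h => by
    have h : x = y := h
    subst h
    omega
  | k + 1, x, y, ⟨c, h1, h2⟩ => by
    have := lip_walk g hg k h2
    rcases h1 with h1 | h1
    · have := hg _ _ h1
      unfold FR at this
      omega
    · have := hg _ _ h1
      unfold FR at this
      omega

/-- the subdivision of a fence-monotone map -/
def dbl (g : P → ℕ) (c : Ch P) : ℕ :=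
  c.finset.inf' c.nonempty g + c.finset.sup' c.nonempty g

theorem dbl_mono (g : P → ℕ) (hg : ∀ a b, a ≤ b → FR (g a) (g b)) (c c' : Ch P) (h : c ≤ c') :
    FR (dbl g c) (dbl g c') := by
  have a1 : c'.finset.inf' c'.nonempty g ≤ c.finset.inf' c.nonempty g :=
    Finset.inf'_mono g h c.nonempty
  have a2 : c.finset.sup' c.nonempty g ≤ c'.finset.sup' c'.nonempty g :=
    Finset.sup'_mono g h c.nonempty
  have a3 : c.finset.inf' c.nonempty g ≤ c.finset.sup' c.nonempty g := by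
    obtain ⟨x, hx⟩ := c.nonempty
    exact (Finset.inf'_le g hx).trans (Finset.le_sup' g hx)
  have a4 : c'.finset.sup' c'.nonempty g ≤ c'.finset.inf' c'.nonempty g + 1 := by
    obtain ⟨x, hx, e1⟩ := Finset.exists_mem_eq_sup' c'.nonempty g
    obtain ⟨y, hy, e2⟩ := Finset.exists_mem_eq_inf' c'.nonempty g
    rw [e1, e2]
    rcases cmp_of_mem c' hx hy with h | h
    · have := hg _ _ h
      unfold FR at this
      omega
    · have := hg _ _ h
      unfold FR at this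
      omega
  unfold FR dbl
  omega

theorem dbl_le (g : P → ℕ) {B : ℕ} (hg : ∀ a, g a ≤ B) (c : Ch P) : dbl g c ≤ 2 * B := by
  obtain ⟨x, hx, e1⟩ := Finset.exists_mem_eq_sup' c.nonempty g
  obtain ⟨y, hy, e2⟩ := Finset.exists_mem_eq_inf' c.nonempty g
  have := hg x
  have := hg y
  unfold dbl
  omega

theorem dbl_sing (g : P → ℕ) (x : P) : dbl g (sing x) = 2 * g x := by
  simp [dbl, sing, two_mul]

theorem dbl_map {Q : Type} [PartialOrder Q] (f : Q →o P) (g : P → ℕ) (c : Ch Q) :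
    dbl g (c.map f) = dbl (g ∘ f) c := by
  classical
  simp only [dbl, NonemptyFiniteChains.map]
  rw [Finset.inf'_image, Finset.sup'_image]

theorem map_sing {Q : Type} [PartialOrder Q] (f : Q →o P) (x : Q) :
    (sing x).map f = sing (f x) := by
  ext y
  simp [mem_sing, eq_comm]

end

end Pool.Agent.H.MP_61b90e_gt
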