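import Pool.Agent.H.MP_61b90e_gt.A

namespace Pool.Agent.H.MP_61b90e_gt

open CategoryTheory Opposite PartialOrder

section
open Simplicial

noncomputable abbrev CH : PartOrd.{0} ⥤ PartOrd.{0} := PartOrd.nonemptyFiniteChainsFunctor
abbrev NN : PartOrd.{0} ⥤ SSet.{0} := PartOrd.nerveFunctor
abbrev TT : SimplexCategory ⥤ PartOrd.{0} := SimplexCategory.toPartOrd

def toHom {P : PartOrd.{0}} {j : SimplexCategory} (σ : (NN.obj P).obj (op j)) : TT.obj j ⟶ P :=
  PartOrd.ofHom (X := ULift.{0} (Fin (j.len + 1)))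
    ⟨fun i => Functor.obj σ i.down, fun _ _ h => leOfHom (CategoryTheory.Functor.map σ (homOfLE h))⟩

def ofHom {P : PartOrd.{0}} {j : SimplexCategory} (f : TT.obj j ⟶ P) : (NN.obj P).obj (op j) :=
  (show Monotone (fun i : Fin (j.len + 1) => f.hom (ULift.up i)) from
    fun _ _ h => f.hom.monotone h).functor

theorem toHom_ofHom {P : PartOrd.{0}} {j : SimplexCategory} (f : TT.obj j ⟶ P) :
    toHom (ofHom f) = f := rfl

theorem simplex_ext {P : PartOrd.{0}} {j : SimplexCategoryᵒᵖ} {σ τ : (NN.obj P).obj j}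
    (h : ∀ i, Functor.obj σ i = Functor.obj τ i) : σ = τ :=
  CategoryTheory.Functor.ext h (fun _ _ _ => Subsingleton.elim _ _)

theorem ofHom_toHom {P : PartOrd.{0}} {j : SimplexCategory} (σ : (NN.obj P).obj (op j)) :
    ofHom (toHom σ) = σ := simplex_ext fun _ => rfl

theorem toHom_map {P : PartOrd.{0}} {j k : SimplexCategory} (a : k ⟶ j)
    (σ : (NN.obj P).obj (op j)) : toHom ((NN.obj P).map a.op σ) = TT.map a ≫ toHom σ := rfl

theorem toHom_app {P Q : PartOrd.{0}} {j : SimplexCategory} (f : P ⟶ Q)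
    (σ : (NN.obj P).obj (op j)) : toHom ((NN.map f).app (op j) σ) = toHom σ ≫ f := rfl

theorem app_obj {P Q : PartOrd.{0}} {j : SimplexCategoryᵒᵖ} (f : P ⟶ Q)
    (σ : (NN.obj P).obj j) (i : Fin (j.unop.len + 1)) :
    Functor.obj ((NN.map f).app j σ) i = f.hom (Functor.obj σ i) := rfl

noncomputable def Phi {P : PartOrd.{0}} {Y : SSet.{0}} (G : NN.obj (CH.obj P) ⟶ Y) :
    NN.obj P ⟶ SSet.ex.obj Y where
  app j := ↾fun σ => ULift.up (NN.map (CH.map (toHom σ)) ≫ G)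
  naturality j k a := by
    ext σ
    change ULift.up (NN.map (CH.map (TT.map a.unop ≫ toHom σ)) ≫ G) =
      ULift.up (NN.map (CH.map (TT.map a.unop)) ≫ NN.map (CH.map (toHom σ)) ≫ G)
    rw [CH.map_comp, NN.map_comp, Category.assoc]

theorem Phi_nat {P Q : PartOrd.{0}} {Y : SSet.{0}} (f : P ⟶ Q) (G : NN.obj (CH.obj Q) ⟶ Y) :
    Phi (NN.map (CH.map f) ≫ G) = NN.map f ≫ Phi G := by
  ext j σ
  change ULift.up (NN.map (CH.map (toHom σ)) ≫ NN.map (CH.map f) ≫ G) =
    ULift.up (NN.map (CH.map (toHom σ ≫ f)) ≫ G)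
  rw [CH.map_comp, NN.map_comp, Category.assoc]

/-- enumeration of a chain -/
theorem exists_enum {P : PartOrd.{0}} (c : Ch P) :
    ∃ (i : SimplexCategory) (e : TT.obj i ⟶ P), Function.Injective e.hom ∧
      ∀ x, x ∈ c.finset ↔ x ∈ Set.range e.hom := by
  classical
  letI : LinearOrder c.finset :=
    { (inferInstance : PartialOrder c.finset) with
      le_total := c.comparable
      toDecidableLE := Classical.decRel _ }
  obtain ⟨i, hi⟩ : ∃ i, Fintype.card c.finset = i + 1 := by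
    have : 0 < Fintype.card c.finset := by
      rw [Fintype.card_coe]; exact c.nonempty.card_pos
    exact ⟨_, (Nat.succ_pred_eq_of_pos this).symm⟩
  let E := monoEquivOfFin c.finset hi
  refine ⟨⦋i⦌, PartOrd.ofHom (X := ULift.{0} (Fin (i + 1)))
    ⟨fun k => (E k.down).1, fun _ _ h => E.monotone h⟩, fun k l h => ?_, fun x => ⟨fun h => ?_, ?_⟩⟩
  · exact ULift.ext _ _ (E.injective (Subtype.ext h))
  · exact ⟨ULift.up (E.symm ⟨x, h⟩), congrArg Subtype.val (E.apply_symm_apply ⟨x, h⟩)⟩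
  · rintro ⟨k, rfl⟩
    exact (E k.down).2

theorem refl_le {P : PartOrd.{0}} {i : SimplexCategory} {e : TT.obj i ⟶ P}
    (he : Function.Injective e.hom) {u v : TT.obj i} (h : e.hom u ≤ e.hom v) : u ≤ v := by
  rcases le_total (α := Fin (i.len + 1)) u.down v.down with h' | h'
  · exact h'
  · exact (he (le_antisymm h (e.hom.monotone h'))).le

theorem exists_fac {P : PartOrd.{0}} {i j : SimplexCategory} (σ : TT.obj j ⟶ P)
    (e : TT.obj i ⟶ P) (he : Function.Injective e.hom) (h : ∀ x, σ.hom x ∈ Set.range e.hom) :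
    ∃ a : j ⟶ i, TT.map a ≫ e = σ := by
  choose b hb using h
  refine ⟨SimplexCategory.Hom.mk ⟨fun k => (b (ULift.up k)).down, fun k l hkl => ?_⟩, ?_⟩
  · have : e.hom (b (ULift.up k)) ≤ e.hom (b (ULift.up l)) := by
      rw [hb, hb]; exact σ.hom.monotone hkl
    exact refl_le he this
  · ext x
    exact hb x

theorem chmap_inj {P Q : Type} [PartialOrder P] [PartialOrder Q] {f : P →o Q}
    (hf : Function.Injective f) {c c' : Ch P} (h : c.map f ≤ c'.map f) : c ≤ c' := by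
  refine ch_le.2 fun x hx => ?_
  obtain ⟨y, hy, e⟩ := (NonemptyFiniteChains.mem_map_iff _ _ _).1
    (ch_le.1 h (f x) ((NonemptyFiniteChains.mem_map_iff _ _ _).2 ⟨x, hx, rfl⟩))
  exact hf e ▸ hy

theorem exists_chpre {P Q : Type} [PartialOrder P] [PartialOrder Q] {f : P →o Q}
    (hf : ∀ u v, f u ≤ f v → u ≤ v) (c : Ch Q) (h : ∀ x ∈ c.finset, x ∈ Set.range f) :
    ∃ c' : Ch P, c'.map f = c := by
  classical
  have hi : Function.Injective f := fun u v e => le_antisymm (hf _ _ e.le) (hf _ _ e.ge)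
  refine ⟨⟨c.finset.preimage f hi.injOn, ?_, ?_⟩, ?_⟩
  · obtain ⟨x, hx⟩ := c.nonempty
    obtain ⟨u, rfl⟩ := h x hx
    exact ⟨u, Finset.mem_preimage.2 hx⟩
  · rintro ⟨a, ha⟩ ⟨b, hb⟩
    rcases cmp_of_mem c (Finset.mem_preimage.1 ha) (Finset.mem_preimage.1 hb) with h | h
    · exact Or.inl (hf _ _ h)
    · exact Or.inr (hf _ _ h)
  · ext x
    rw [NonemptyFiniteChains.mem_map_iff]
    constructor
    · rintro ⟨u, hu, rfl⟩
      exact (Finset.mem_preimage (hf := hi.injOn)).1 hu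
    · intro hx
      obtain ⟨u, rfl⟩ := h x hx
      exact ⟨u, (Finset.mem_preimage (hf := hi.injOn)).2 hx, rfl⟩

/-- the top chain of a simplex of the subdivision -/
def top {P : PartOrd.{0}} {r : SimplexCategoryᵒᵖ} (τ : (NN.obj (CH.obj P)).obj r) : Ch P :=
  Functor.obj τ (Fin.last _)

theorem le_top' {P : PartOrd.{0}} {r : SimplexCategoryᵒᵖ} (τ : (NN.obj (CH.obj P)).obj r)
    (k : Fin (r.unop.len + 1)) : (Functor.obj τ k : Ch P) ≤ top τ :=
  leOfHom (CategoryTheory.Functor.map τ (homOfLE (Fin.le_last k)))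

theorem exists_pre {P : PartOrd.{0}} {i : SimplexCategory} {e : TT.obj i ⟶ P}
    (he : Function.Injective e.hom) {r : SimplexCategoryᵒᵖ} (τ : (NN.obj (CH.obj P)).obj r)
    (h : ∀ x ∈ (top τ).finset, x ∈ Set.range e.hom) :
    ∃ τ', (NN.map (CH.map e)).app r τ' = τ := by
  have : ∀ k, ∃ c' : Ch (TT.obj i), c'.map e.hom = Functor.obj τ k := fun k =>
    exists_chpre (fun _ _ => refl_le he) _ fun x hx => h x (ch_le.1 (le_top' τ k) x hx)
  choose c hc using this
  have m : Monotone c := fun k l hkl => chmap_inj he (by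
    rw [hc, hc]; exact leOfHom (CategoryTheory.Functor.map τ (homOfLE hkl)))
  exact ⟨m.functor, simplex_ext hc⟩

theorem pre_unique {P : PartOrd.{0}} {i : SimplexCategory} {e : TT.obj i ⟶ P}
    (he : Function.Injective e.hom) {r : SimplexCategoryᵒᵖ}
    {τ₁ τ₂ : (NN.obj (CH.obj (TT.obj i))).obj r}
    (h : (NN.map (CH.map e)).app r τ₁ = (NN.map (CH.map e)).app r τ₂) : τ₁ = τ₂ := by
  refine simplex_ext fun k => ?_
  have : NonemptyFiniteChains.map (Functor.obj τ₁ k) e.hom =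
      NonemptyFiniteChains.map (Functor.obj τ₂ k) e.hom := congrArg (fun τ => Functor.obj τ k) h
  exact le_antisymm (chmap_inj he this.le) (chmap_inj he this.ge)

theorem exists_factor {P : PartOrd.{0}} {r : SimplexCategoryᵒᵖ} (τ : (NN.obj (CH.obj P)).obj r) :
    ∃ (i : SimplexCategory) (e : TT.obj i ⟶ P) (τ' : (NN.obj (CH.obj (TT.obj i))).obj r),
      (NN.map (CH.map e)).app r τ' = τ := by
  obtain ⟨i, e, he, h⟩ := exists_enum (top τ)
  obtain ⟨τ', h'⟩ := exists_pre he τ fun x hx => (h x).1 hx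
  exact ⟨i, e, τ', h'⟩

theorem Phi_inj {P : PartOrd.{0}} {Y : SSet.{0}} {G G' : NN.obj (CH.obj P) ⟶ Y}
    (h : Phi G = Phi G') : G = G' := by
  ext r τ
  obtain ⟨i, e, τ', rfl⟩ := exists_factor τ
  have : (ULift.up (NN.map (CH.map e) ≫ G) : ULift.{0} _) = ULift.up (NN.map (CH.map e) ≫ G') :=
    congrArg (fun F : NN.obj P ⟶ SSet.ex.obj Y => F.app (op i) (ofHom e)) h
  exact congrArg (fun x : ULift.{0} (NN.obj (CH.obj (TT.obj i)) ⟶ Y) => x.down.app r τ') this

/-- the value of `F` on a simplex, as a map out of the subdivided simplex -/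
def val {P : PartOrd.{0}} {Y : SSet.{0}} (F : NN.obj P ⟶ SSet.ex.obj Y) {j : SimplexCategory}
    (σ : TT.obj j ⟶ P) : NN.obj (CH.obj (TT.obj j)) ⟶ Y :=
  ULift.down (F.app (op j) (ofHom σ))

theorem val_comp {P : PartOrd.{0}} {Y : SSet.{0}} (F : NN.obj P ⟶ SSet.ex.obj Y)
    {j k : SimplexCategory} (a : k ⟶ j) (σ : TT.obj j ⟶ P) :
    val F (TT.map a ≫ σ) = NN.map (CH.map (TT.map a)) ≫ val F σ :=
  congrArg ULift.down (F.naturality_apply a.op (ofHom σ))

theorem val_indep' {P : PartOrd.{0}} {Y : SSet.{0}} (F : NN.obj P ⟶ SSet.ex.obj Y)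
    {i j : SimplexCategory} {r : SimplexCategoryᵒᵖ} (σ : TT.obj j ⟶ P) (e : TT.obj i ⟶ P)
    (he : Function.Injective e.hom) (τ : (NN.obj (CH.obj (TT.obj j))).obj r)
    (τ' : (NN.obj (CH.obj (TT.obj i))).obj r)
    (h : (NN.map (CH.map σ)).app r τ = (NN.map (CH.map e)).app r τ') :
    (val F σ).app r τ = (val F e).app r τ' := by
  obtain ⟨l, s, hs, hs'⟩ := exists_enum (top τ)
  obtain ⟨τ'', rfl⟩ := exists_pre hs τ fun x hx => (hs' x).1 hx
  obtain ⟨a, ha⟩ := exists_fac s (𝟙 _) (fun _ _ h => h) fun x => ⟨s.hom x, rfl⟩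
  rw [Category.comp_id] at ha
  subst ha
  have ht : (top ((NN.map (CH.map (TT.map a))).app r τ'')).map σ.hom = (top τ').map e.hom :=
    congrArg top h
  obtain ⟨b, hb⟩ := exists_fac (TT.map a ≫ σ) e he fun x => by
    have h1 : σ.hom ((TT.map a).hom x) ∈ ((top τ').map e.hom).finset := by
      rw [← ht]
      exact (NonemptyFiniteChains.mem_map_iff _ _ _).2 ⟨_, (hs' _).2 ⟨x, rfl⟩, rfl⟩
    obtain ⟨y, -, hy⟩ := (NonemptyFiniteChains.mem_map_iff _ _ _).1 h1
    exact ⟨y, hy⟩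
  have e1 : (val F σ).app r ((NN.map (CH.map (TT.map a))).app r τ'') =
      (val F (TT.map a ≫ σ)).app r τ'' := by rw [val_comp]; rfl
  have e2 : (val F (TT.map b ≫ e)).app r τ'' =
      (val F e).app r ((NN.map (CH.map (TT.map b))).app r τ'') := by rw [val_comp]; rfl
  have e3 : (NN.map (CH.map (TT.map b))).app r τ'' = τ' := by
    apply pre_unique he
    rw [← h]
    change (NN.map (CH.map (TT.map b)) ≫ NN.map (CH.map e)).app r τ'' =
      (NN.map (CH.map (TT.map a)) ≫ NN.map (CH.map σ)).app r τ''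
    rw [← NN.map_comp, ← CH.map_comp, hb, CH.map_comp, NN.map_comp]
  rw [e1, ← hb, e2, e3]

theorem val_indep {P : PartOrd.{0}} {Y : SSet.{0}} (F : NN.obj P ⟶ SSet.ex.obj Y)
    {i j : SimplexCategory} {r : SimplexCategoryᵒᵖ} (σ : TT.obj j ⟶ P) (σ' : TT.obj i ⟶ P)
    (τ : (NN.obj (CH.obj (TT.obj j))).obj r) (τ' : (NN.obj (CH.obj (TT.obj i))).obj r)
    (h : (NN.map (CH.map σ)).app r τ = (NN.map (CH.map σ')).app r τ') :
    (val F σ).app r τ = (val F σ').app r τ' := by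
  obtain ⟨l, e, he, he'⟩ := exists_enum (top ((NN.map (CH.map σ)).app r τ))
  obtain ⟨τ'', h'⟩ := exists_pre he _ fun x hx => (he' x).1 hx
  rw [val_indep' F σ e he τ τ'' h'.symm, val_indep' F σ' e he τ' τ'' (h'.trans h).symm]

theorem Phi_surj {P : PartOrd.{0}} {Y : SSet.{0}} (F : NN.obj P ⟶ SSet.ex.obj Y) :
    ∃ G, Phi G = F := by
  choose i e t ht using fun (r : SimplexCategoryᵒᵖ) (τ : (NN.obj (CH.obj P)).obj r) =>
    exists_factor τ
  let G : NN.obj (CH.obj P) ⟶ Y :=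
    { app := fun r => ↾fun τ => (val F (e r τ)).app r (t r τ)
      naturality := fun r s a => by
        ext τ
        change (val F (e s _)).app s (t s _) = Y.map a ((val F (e r τ)).app r (t r τ))
        rw [← (val F (e r τ)).naturality_apply]
        apply val_indep
        rw [ht, (NN.map (CH.map (e r τ))).naturality_apply, ht]
        rfl }
  refine ⟨G, ?_⟩
  ext j σ
  obtain ⟨j⟩ := j
  change ULift.up (NN.map (CH.map (toHom σ)) ≫ G) = F.app (op j) σ
  have : F.app (op j) σ = ULift.up (val F (toHom σ)) := by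
    unfold val
    rw [ofHom_toHom]
    rfl
  rw [this]
  congr 1
  ext r τ
  exact val_indep F _ _ _ _ (ht _ _)

/-- maps from nerves of posets to `X` are the monotone maps `F P → Z`, naturally in `P`. -/
def Rep (X : SSet.{0}) (F : PartOrd.{0} ⥤ PartOrd.{0}) (Z : PartOrd.{0}) : Prop :=
  ∃ e : ∀ P : PartOrd.{0}, (NN.obj P ⟶ X) ≃ (F.obj P ⟶ Z),
    ∀ (P Q : PartOrd.{0}) (f : P ⟶ Q) (g : NN.obj Q ⟶ X), e P (NN.map f ≫ g) = F.map f ≫ e Q g

theorem Rep.ex {X : SSet.{0}} {F : PartOrd.{0} ⥤ PartOrd.{0}} {Z : PartOrd.{0}}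
    (h : Rep X F Z) : Rep (SSet.ex.obj X) (CH ⋙ F) Z := by
  obtain ⟨e, he⟩ := h
  let φ : ∀ P : PartOrd.{0}, (NN.obj (CH.obj P) ⟶ X) ≃ (NN.obj P ⟶ SSet.ex.obj X) := fun P =>
    Equiv.ofBijective Phi ⟨fun _ _ => Phi_inj, Phi_surj⟩
  refine ⟨fun P => (φ P).symm.trans (e (CH.obj P)), fun P Q f g => ?_⟩
  obtain ⟨G, rfl⟩ := (φ Q).surjective g
  have : NN.map f ≫ φ Q G = φ P (NN.map (CH.map f) ≫ G) := (Phi_nat f G).symm
  rw [this]
  simp only [Equiv.trans_apply, Equiv.symm_apply_apply]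
  exact he _ _ _ _

theorem rep_zero (Z : PartOrd.{0}) : Rep (nerve Z) (𝟭 _) Z := by
  have hb : ∀ P : PartOrd.{0}, Function.Bijective (fun f : P ⟶ Z => NN.map f) := by
    intro P
    constructor
    · intro f g h
      ext x
      exact congrArg (fun φ : NN.obj P ⟶ NN.obj Z =>
        Functor.obj (φ.app (op ⦋0⦌) (ComposableArrows.mk₀ x)) 0) h
    · intro φ
      have key : ∀ (j : SimplexCategory) (σ : (NN.obj P).obj (op j)) (k : Fin (j.len + 1)),
          Functor.obj (φ.app (op j) σ) k =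
            Functor.obj (φ.app (op ⦋0⦌) (ComposableArrows.mk₀ (Functor.obj σ k))) 0 := by
        intro j σ k
        have h1 := φ.naturality_apply (SimplexCategory.const ⦋0⦌ j k).op σ
        have h2 : (NN.obj P).map (SimplexCategory.const ⦋0⦌ j k).op σ =
            ComposableArrows.mk₀ (Functor.obj σ k) := simplex_ext fun _ => rfl
        rw [← h2, h1]
        rfl
      refine ⟨PartOrd.ofHom ⟨fun x => Functor.obj (φ.app (op ⦋0⦌) (ComposableArrows.mk₀ x)) 0,
        fun x y hxy => ?_⟩, ?_⟩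
      · have a0 := key ⦋1⦌ (ComposableArrows.mk₁ (homOfLE hxy)) 0
        have a1 := key ⦋1⦌ (ComposableArrows.mk₁ (homOfLE hxy)) 1
        have a2 := leOfHom (CategoryTheory.Functor.map (φ.app (op ⦋1⦌) (ComposableArrows.mk₁ (homOfLE hxy)))
          (homOfLE (show (0 : Fin 2) ≤ 1 from by decide)))
        rw [a0, a1] at a2
        exact a2
      · ext j σ
        obtain ⟨j⟩ := j
        exact simplex_ext fun k => (key j σ k).symm
  refine ⟨fun P => (Equiv.ofBijective _ (hb P)).symm, fun P Q f g => ?_⟩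
  obtain ⟨g, rfl⟩ := (hb Q).2 g
  refine (Equiv.symm_apply_eq _).2 ?_
  have : (Equiv.ofBijective _ (hb Q)).symm (NN.map g) = g :=
    (Equiv.ofBijective _ (hb Q)).symm_apply_apply g
  change NN.map f ≫ NN.map g = NN.map (f ≫ (Equiv.ofBijective _ (hb Q)).symm (NN.map g))
  rw [this, NN.map_comp]

end

noncomputable def G : ℕ → PartOrd.{0} ⥤ PartOrd.{0}
  | 0 => 𝟭 _
  | n + 1 => G n ⋙ CH

theorem CH_G : ∀ n, CH ⋙ G n = G (n + 1)
  | 0 => rfl
  | n + 1 => by
    change (CH ⋙ G n) ⋙ CH = G (n + 1) ⋙ CH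
    rw [CH_G n]

theorem rep_iter (Z : PartOrd.{0}) : ∀ n, Rep (SSet.ex.obj^[n] (nerve Z)) (G n) Z
  | 0 => rep_zero Z
  | n + 1 => by
    rw [Function.iterate_succ_apply', ← CH_G]
    exact (rep_iter Z n).ex

open Simplicial

theorem iso_nat {n m : ℕ} (a : ⦋n⦌ ⟶ ⦋m⦌) :
    (SSet.stdSimplex.isoNerve.{0} n).inv ≫ SSet.stdSimplex.map a =
      NN.map (TT.map a) ≫ (SSet.stdSimplex.isoNerve.{0} m).inv := by
  ext j σ
  rfl

end Pool.Agent.H.MP_61b90e_gt
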