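import Pool.Agent.H.MP_61b90e_gt.B

namespace Pool.Agent.H.MP_61b90e_gt

open CategoryTheory Opposite PartialOrder

def Supp {P : PartOrd.{0}} (S : Set P) : (n : ℕ) → Set ((G n).obj P)
  | 0 => S
  | n + 1 => ChS (Supp S n)

theorem G_refl {P Q : PartOrd.{0}} (f : P ⟶ Q) (hf : ∀ u v, f.hom u ≤ f.hom v → u ≤ v) :
    ∀ (n : ℕ) (u v : (G n).obj P), ((G n).map f).hom u ≤ ((G n).map f).hom v → u ≤ v
  | 0 => hf
  | n + 1 => fun _ _ h =>
    chmap_inj (f := ((G n).map f).hom)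
      (fun _ _ e => le_antisymm (G_refl f hf n _ _ e.le) (G_refl f hf n _ _ e.ge)) h

theorem G_range {P Q : PartOrd.{0}} (f : P ⟶ Q) (hf : ∀ u v, f.hom u ≤ f.hom v → u ≤ v) :
    ∀ (n : ℕ) (y : (G n).obj Q), y ∈ Set.range ((G n).map f).hom ↔ y ∈ Supp (Set.range f.hom) n
  | 0 => fun _ => Iff.rfl
  | n + 1 => fun y => by
    constructor
    · rintro ⟨c, rfl⟩ x hx
      obtain ⟨u, -, rfl⟩ := (NonemptyFiniteChains.mem_map_iff _ _ _).1 hx
      exact (G_range f hf n _).1 ⟨u, rfl⟩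
    · intro h
      exact exists_chpre (G_refl f hf n) y fun x hx => (G_range f hf n _).2 (h x hx)

theorem Supp_inter {P : PartOrd.{0}} {S S' S'' : Set P} (h : ∀ x, x ∈ S → x ∈ S' → x ∈ S'') :
    ∀ (n : ℕ) (y : (G n).obj P), y ∈ Supp S n → y ∈ Supp S' n → y ∈ Supp S'' n
  | 0 => h
  | n + 1 => fun _ h1 h2 x hx => Supp_inter h n x (h1 x hx) (h2 x hx)

def AA {P : PartOrd.{0}} {ι : Type} (p : ι → Prop) (S : ι → Set P) (n : ℕ) :
    Set ((G (n + 1)).obj P) := {w | ∃ j, p j ∧ w ∈ Supp (S j) (n + 1)}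

theorem AA_lower {P : PartOrd.{0}} {ι : Type} (p : ι → Prop) (S : ι → Set P) (n : ℕ) :
    IsLowerSet (AA p S n) := fun _ _ h ⟨j, hj, hw⟩ => ⟨j, hj, chS_lower _ h hw⟩

theorem AA_conv {P : PartOrd.{0}} {ι : Type} (p : ι → Prop) (S : ι → Set P) :
    ∀ n, Conv (AA p S n) (2 ^ n - 1)
  | 0 => by
    intro s hs a _ b _ h
    obtain rfl : s = 0 := by simpa using hs
    exact h
  | n + 1 => by
    have e : AA p S (n + 1) = ChS (AA p S n) := by
      ext w
      constructor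
      · rintro ⟨j, hj, hw⟩ x hx
        exact ⟨j, hj, hw x hx⟩
      · intro h
        obtain ⟨α, hα, hα'⟩ := exists_top w
        obtain ⟨j, hj, hw⟩ := h α hα
        exact ⟨j, hj, fun x hx => chS_lower _ (hα' x hx) hw⟩
    have e2 : 2 ^ (n + 1) - 1 = 2 * (2 ^ n - 1) + 1 := by
      have := Nat.one_le_two_pow (n := n)
      omega
    rw [e, e2]
    exact conv_double (AA_lower p S n) (AA_conv p S n)

noncomputable def Dn {P : PartOrd.{0}} (w : P → ℕ) : (n : ℕ) → (G n).obj P → ℕ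
  | 0 => w
  | n + 1 => dbl (Dn w n)

noncomputable def pt {P : PartOrd.{0}} (x : P) : (n : ℕ) → (G n).obj P
  | 0 => x
  | n + 1 => sing (pt x n)

theorem Dn_mono {P : PartOrd.{0}} (w : P → ℕ) (hw : ∀ a b, a ≤ b → FR (w a) (w b)) :
    ∀ (n : ℕ) (a b : (G n).obj P), a ≤ b → FR (Dn w n a) (Dn w n b)
  | 0 => hw
  | n + 1 => dbl_mono _ (Dn_mono w hw n)

theorem Dn_le {P : PartOrd.{0}} (w : P → ℕ) (hw : ∀ a, w a ≤ 2) :
    ∀ (n : ℕ) (a : (G n).obj P), Dn w n a ≤ 2 ^ (n + 1)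
  | 0 => hw
  | n + 1 => fun a => (dbl_le _ (Dn_le w hw n) a).trans (by rw [pow_succ 2 (n + 1)]; omega)

theorem Dn_pt {P : PartOrd.{0}} (w : P → ℕ) (x : P) : ∀ n, Dn w n (pt x n) = 2 ^ n * w x
  | 0 => by simp [Dn, pt]
  | n + 1 => by
    have := dbl_sing (Dn w n) (pt x n)
    rw [Dn_pt w x n] at this
    exact this.trans (by ring)

theorem Dn_map {P Q : PartOrd.{0}} (f : P ⟶ Q) (w : Q → ℕ) :
    ∀ (n : ℕ) (x : (G n).obj P), Dn w n (((G n).map f).hom x) = Dn (w ∘ f.hom) n x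
  | 0 => fun _ => rfl
  | n + 1 => fun x => by
    have := dbl_map ((G n).map f).hom (Dn w n) x
    have e : Dn w n ∘ ((G n).map f).hom = Dn (w ∘ f.hom) n := funext (Dn_map f w n)
    rw [e] at this
    exact this

theorem pt_map {P Q : PartOrd.{0}} (f : P ⟶ Q) (x : P) :
    ∀ n, ((G n).map f).hom (pt x n) = pt (f.hom x) n
  | 0 => rfl
  | n + 1 => by
    have := map_sing ((G n).map f).hom (pt x n)
    rw [pt_map f x n] at this
    exact this

theorem pt_walk {P : PartOrd.{0}} {x y : P} (h : x ≤ y) : ∀ n, Pow Cmp (2 ^ n) (pt x n) (pt y n)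
  | 0 => ⟨y, Or.inl h, rfl⟩
  | n + 1 => by
    rw [pow_succ']
    exact walk_double _ (pt_walk h n)

@[ext] structure Fence (m : ℕ) where
  val : ℕ
  le : val ≤ m

instance (m : ℕ) : PartialOrder (Fence m) where
  le x y := FR x.val y.val
  le_refl _ := Or.inl rfl
  le_trans x y z h1 h2 := by
    change FR _ _ at h1 h2 ⊢
    unfold FR at *
    omega
  le_antisymm x y h1 h2 := by
    change FR _ _ at h1 h2
    unfold FR at *
    exact Fence.ext (by omega)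

def mkHom {P : PartOrd.{0}} {m : ℕ} (g : P → ℕ) (h1 : ∀ a b, a ≤ b → FR (g a) (g b))
    (h2 : ∀ a, g a ≤ m) : P ⟶ PartOrd.of (Fence m) :=
  PartOrd.ofHom ⟨fun a => ⟨g a, h2 a⟩, h1⟩

open Simplicial

theorem Rep.std {X : SSet.{0}} {F : PartOrd.{0} ⥤ PartOrd.{0}} {Z : PartOrd.{0}} (h : Rep X F Z) :
    ∃ e : ∀ d : ℕ, ((Δ[d] : SSet.{0}) ⟶ X) ≃ (F.obj (TT.obj ⦋d⦌) ⟶ Z),
      ∀ (d : ℕ) (j : Fin (d + 2)) (g : (Δ[d + 1] : SSet.{0}) ⟶ X),
        e d (SSet.stdSimplex.δ j ≫ g) = F.map (TT.map (SimplexCategory.δ j)) ≫ e (d + 1) g := by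
  obtain ⟨e, he⟩ := h
  refine ⟨fun d => (Iso.homCongr (SSet.stdSimplex.isoNerve.{0} d) (Iso.refl X)).trans
    (e (TT.obj ⦋d⦌)), fun d j g => ?_⟩
  refine Eq.trans ?_ (he _ _ (TT.map (SimplexCategory.δ j)) _)
  refine congrArg (e _) ?_
  have := iso_nat (SimplexCategory.δ j)
  change (SSet.stdSimplex.isoNerve.{0} d).inv ≫ (SSet.stdSimplex.map (SimplexCategory.δ j) ≫ g) ≫ 𝟙 _ =
    NN.map (TT.map (SimplexCategory.δ j)) ≫ (SSet.stdSimplex.isoNerve.{0} (d + 1)).inv ≫ g ≫ 𝟙 _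
  rw [Category.comp_id, Category.comp_id, ← Category.assoc, this]
  exact Category.assoc _ _ _

theorem delta_refl {d : ℕ} (j : Fin (d + 2)) (u v : TT.obj ⦋d⦌)
    (h : (TT.map (SimplexCategory.δ j)).hom u ≤ (TT.map (SimplexCategory.δ j)).hom v) : u ≤ v := by
  have h : j.succAbove u.down ≤ j.succAbove v.down := h
  exact Fin.succAbove_le_succAbove_iff.1 h

theorem delta_range {d : ℕ} (j : Fin (d + 2)) (x : TT.obj ⦋d + 1⦌) :
    x ∈ Set.range (TT.map (SimplexCategory.δ j)).hom ↔ x.down ≠ j := by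
  constructor
  · rintro ⟨u, rfl⟩
    exact Fin.succAbove_ne j u.down
  · intro h
    obtain ⟨u, hu⟩ := Fin.exists_succAbove_eq h
    exact ⟨ULift.up u, ULift.ext _ _ hu⟩

theorem kan_fence (n : ℕ) : SSet.KanComplex (SSet.ex.obj^[n + 1] (nerve (Fence (2 ^ (n + 1))))) := by
  classical
  obtain ⟨e, he⟩ := (rep_iter (PartOrd.of (Fence (2 ^ (n + 1)))) (n + 1)).std
  refine SSet.KanComplex.iff.2 fun d i f hf => ?_
  let D : (j : Fin (d + 2)) → ((G (n + 1)).obj (TT.obj ⦋d⦌) →o (G (n + 1)).obj (TT.obj ⦋d + 1⦌)) :=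
    fun j => ((G (n + 1)).map (TT.map (SimplexCategory.δ j))).hom
  have Dr : ∀ j u v, D j u ≤ D j v → u ≤ v := fun j => G_refl _ (delta_refl j) _
  have Di : ∀ j u v, D j u = D j v → u = v := fun j u v h =>
    le_antisymm (Dr j _ _ h.le) (Dr j _ _ h.ge)
  have lt : ∀ j k hj hk x y, j < k → D j x = D k y →
      (e d (f j hj)).hom x = (e d (f k hk)).hom y := by
    intro j k hj hk x y hjk hxy
    rcases d with _ | d
    · exfalso
      omega
    obtain ⟨j, rfl⟩ := j.eq_castSucc_of_ne_last (Fin.ne_last_of_lt hjk)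
    obtain ⟨k, rfl⟩ := k.eq_succ_of_ne_zero (Fin.ne_zero_of_lt hjk)
    have hle : j ≤ k := Fin.castSucc_lt_succ_iff.1 hjk
    have hc := hf _ _ hj hk hjk
    rw [Fin.pred_succ, Fin.castPred_castSucc] at hc
    have hc := congrArg (e d) hc
    rw [he, he] at hc
    have hd := SimplexCategory.δ_comp_δ hle
    have s1 := (G_range _ (delta_refl j.castSucc) (n + 1) _).1 ⟨x, rfl⟩
    have s2 := (G_range _ (delta_refl k.succ) (n + 1) _).1 ⟨y, hxy.symm⟩
    have rf : ∀ u v, (TT.map (SimplexCategory.δ k) ≫ TT.map (SimplexCategory.δ j.castSucc)).hom u ≤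
        (TT.map (SimplexCategory.δ k) ≫ TT.map (SimplexCategory.δ j.castSucc)).hom v → u ≤ v :=
      fun u v h => delta_refl _ _ _ (delta_refl _ _ _ h)
    obtain ⟨z, hz⟩ := (G_range _ rf (n + 1) _).2 (Supp_inter (fun w h1 h2 => by
      obtain ⟨u, rfl⟩ := h1
      have h2 := (delta_range _ _).1 h2
      have : u.down ≠ k := by
        rintro rfl
        exact h2 (Fin.succAbove_of_le_castSucc _ _ (Fin.castSucc_le_castSucc_iff.2 hle))
      obtain ⟨v, rfl⟩ := (delta_range k u).2 this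
      exact ⟨v, rfl⟩) (n + 1) _ s1 s2)
    have x1 : ((G (n + 1)).map (TT.map (SimplexCategory.δ k))).hom z = x := by
      apply Di j.castSucc
      rw [← hz, Functor.map_comp]
      rfl
    have x2 : ((G (n + 1)).map (TT.map (SimplexCategory.δ j))).hom z = y := by
      apply Di k.succ
      rw [← hxy]
      refine Eq.trans ?_ hz
      rw [← TT.map_comp, ← hd, TT.map_comp, Functor.map_comp]
      rfl
    rw [← x1, ← x2]
    exact congrArg (fun φ => PartOrd.Hom.hom φ z) hc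
  have cp : ∀ j k hj hk x y, D j x = D k y → (e d (f j hj)).hom x = (e d (f k hk)).hom y := by
    intro j k hj hk x y h
    rcases lt_trichotomy j k with h' | rfl | h'
    · exact lt j k hj hk x y h' h
    · rw [Di j x y h]
    · exact (lt k j hk hj y x h' h.symm).symm
  let g : (G (n + 1)).obj (TT.obj ⦋d + 1⦌) → ℕ := fun w =>
    if h : ∃ t : {j // j ≠ i} × (G (n + 1)).obj (TT.obj ⦋d⦌), D t.1.1 t.2 = w then
      ((e d (f h.choose.1.1 h.choose.1.2)).hom h.choose.2).val else 0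
  have hg : ∀ j hj x, g (D j x) = ((e d (f j hj)).hom x).val := by
    intro j hj x
    have h : ∃ t : {j // j ≠ i} × (G (n + 1)).obj (TT.obj ⦋d⦌), D t.1.1 t.2 = D j x :=
      ⟨(⟨j, hj⟩, x), rfl⟩
    simp only [g, dif_pos h]
    rw [cp _ _ _ hj _ _ h.choose_spec]
  have e2 : 2 * (2 ^ n - 1 + 1) = 2 ^ (n + 1) := by
    have := Nat.one_le_two_pow (n := n)
    omega
  obtain ⟨F, F1, F2, F3⟩ := extend
    (AA_lower (fun j => j ≠ i) (fun j => Set.range (TT.map (SimplexCategory.δ j)).hom) n)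
    (AA_conv _ _ n) g (by
      rintro a - b ⟨j, hj, hb⟩ hab
      obtain ⟨x, rfl⟩ := (G_range _ (delta_refl j) (n + 1) a).2 (chS_lower _ hab hb)
      obtain ⟨y, rfl⟩ := (G_range _ (delta_refl j) (n + 1) b).2 hb
      rw [hg j hj x, hg j hj y]
      exact (e d (f j hj)).hom.monotone (Dr j _ _ hab)) (by
      rintro a ⟨j, hj, ha⟩
      obtain ⟨x, rfl⟩ := (G_range _ (delta_refl j) (n + 1) a).2 ha
      rw [hg j hj x, e2]
      exact Fence.le _)
  rw [e2] at F2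
  refine ⟨(e (d + 1)).symm (mkHom F F1 F2), fun j hj => (e d).injective ?_⟩
  rw [he, Equiv.apply_symm_apply]
  ext x
  exact (F3 (D j x) ⟨j, hj, (G_range _ (delta_refl j) (n + 1) _).1 ⟨x, rfl⟩⟩).trans (hg j hj x)

def w0 (x : TT.obj ⦋2⦌) : ℕ := ![0, 2, 1] x.down

def o1 : TT.obj ⦋1⦌ := ULift.up (0 : Fin 2)

theorem not_kan_fence (n : ℕ) :
    ¬ SSet.KanComplex (SSet.ex.obj^[n] (nerve (Fence (2 ^ (n + 1))))) := by
  intro hK
  obtain ⟨e, he⟩ := (rep_iter (PartOrd.of (Fence (2 ^ (n + 1)))) n).std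
  have m1 : ∀ j : Fin 3, j ≠ 2 → ∀ a b : TT.obj ⦋1⦌, a ≤ b →
      FR ((w0 ∘ (TT.map (SimplexCategory.δ j)).hom) a) ((w0 ∘ (TT.map (SimplexCategory.δ j)).hom) b) := by
    rintro j hj ⟨a⟩ ⟨b⟩ hab
    have hab : a ≤ b := hab
    have : ∀ j : Fin 3, j ≠ 2 → ∀ a b : Fin 2, a ≤ b →
        FR (![0, 2, 1] (j.succAbove a)) (![0, 2, 1] (j.succAbove b)) := by
      unfold FR
      decide
    exact this j hj a b hab
  have m2 : ∀ x, w0 x ≤ 2 := by
    rintro ⟨x⟩
    have : ∀ x : Fin 3, ![0, 2, 1] x ≤ 2 := by decide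
    exact this x
  let f : ∀ j : Fin 3, j ≠ 2 → ((G n).obj (TT.obj ⦋1⦌) ⟶ PartOrd.of (Fence (2 ^ (n + 1)))) :=
    fun j hj => mkHom (Dn (w0 ∘ (TT.map (SimplexCategory.δ j)).hom) n) (Dn_mono _ (m1 j hj) n)
      (Dn_le _ (fun _ => m2 _) n)
  obtain ⟨φ, hφ⟩ := SSet.KanComplex.iff.1 hK (n := 1) (i := 2) (fun j hj => (e 1).symm (f j hj)) (by
    intro j k hj hk hjk
    apply (e 0).injective
    rw [he, he, Equiv.apply_symm_apply, Equiv.apply_symm_apply]
    ext x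
    refine (Dn_map _ _ n x).trans (Eq.trans ?_ (Dn_map _ _ n x).symm)
    congr 1
    funext ⟨u⟩
    have : ∀ (j k : Fin 3) (hjk : j < k) (u : Fin 1),
        ![0, 2, 1] (j.succAbove ((k.pred (Fin.ne_zero_of_lt hjk)).succAbove u)) =
        ![0, 2, 1] (k.succAbove ((j.castPred (Fin.ne_last_of_lt hjk)).succAbove u)) := by decide
    exact this j k hjk u)
  have key : ∀ j : Fin 3, j ≠ 2 → ((e 2 φ).hom (pt ((TT.map (SimplexCategory.δ j)).hom o1) n)).val =
      2 ^ n * w0 ((TT.map (SimplexCategory.δ j)).hom o1) := by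
    intro j hj
    have := congrArg (e 1) (hφ j hj)
    rw [he, Equiv.apply_symm_apply] at this
    have := congrArg (fun ψ => Fence.val (PartOrd.Hom.hom ψ (pt o1 n))) this
    rw [← pt_map]
    exact this.trans (Dn_pt _ _ n)
  have k0 := key 0 (by decide)
  have k1 := key 1 (by decide)
  have hle : (TT.map (SimplexCategory.δ (1 : Fin 3))).hom o1 ≤
      (TT.map (SimplexCategory.δ (0 : Fin 3))).hom o1 := by
    change (1 : Fin 3).succAbove 0 ≤ (0 : Fin 3).succAbove 0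
    decide
  have := lip_walk (fun x => ((e 2 φ).hom x).val) (fun a b h => (e 2 φ).hom.monotone h) _
    (pt_walk hle n)
  have v0 : w0 ((TT.map (SimplexCategory.δ (0 : Fin 3))).hom o1) = 2 := rfl
  have v1 : w0 ((TT.map (SimplexCategory.δ (1 : Fin 3))).hom o1) = 0 := rfl
  dsimp only at this
  rw [k0, k1, v0, v1] at this
  have := Nat.one_le_two_pow (n := n)
  omega

end Pool.Agent.H.MP_61b90e_gt
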